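import Mathlib

/-!
# Idempotent binary maps preserving a family of equivalence relations

A collection `𝓔` of equivalence relations on a set `E` has property (P) if the two projections are
the only idempotent maps `E × E → E` preserving all members of `𝓔`.

* `Link 𝓔`: the pairs `(x, y)` and `(x', y')` are linked by a member `θ` of `𝓔` if `x θ x'` and
  `y θ y'`, but not `x θ y`.
* `Linked 𝓔`: any two pairs of distinct elements are connected by a chain of links.
* `PairClosed 𝓔`: for `x ≠ y` no third element is related to `x` by all members of `𝓔` which relate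
  `x` and `y`.

The theorem: property (P) implies `Linked 𝓔` for all collections `𝓔`, and property (P) is equivalent
to `Linked 𝓔` for all collections `𝓔` with `PairClosed 𝓔`. For example, `𝓔` has property (P) if `E`
has at least three elements and every set of two elements is a class of some member of `𝓔`
(`HasPairs 𝓔`). The set `E` may be infinite.
-/

set_option autoImplicit false

namespace Pool.Agent.Results.MP_51c8ca_al.PairClosedFamilies

variable {E : Type}

/-- The map `f` preserves all members of `𝓔`. -/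
def Preserves (𝓔 : Set (Setoid E)) (f : E → E → E) : Prop :=
  ∀ θ ∈ 𝓔, ∀ x x' y y' : E, θ x x' → θ y y' → θ (f x y) (f x' y')

/-- Property (P): the two projections are the only idempotent maps `E × E → E` which preserve all
members of `𝓔`. -/
def PropertyP (𝓔 : Set (Setoid E)) : Prop :=
  ∀ f : E → E → E, (∀ x, f x x = x) → Preserves 𝓔 f →
    (∀ x y, f x y = x) ∨ (∀ x y, f x y = y)

/-- The pairs `u` and `v` are linked by a member `θ` of `𝓔`: it relates the first components and
the second components, but not the first component of `u` to the second. -/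
def Link (𝓔 : Set (Setoid E)) (u v : E × E) : Prop :=
  ∃ θ ∈ 𝓔, θ u.1 v.1 ∧ θ u.2 v.2 ∧ ¬ θ u.1 u.2

/-- Any two pairs of distinct elements are connected by a chain of links. -/
def Linked (𝓔 : Set (Setoid E)) : Prop :=
  ∀ u v : E × E, u.1 ≠ u.2 → v.1 ≠ v.2 → Relation.EqvGen (Link 𝓔) u v

/-- For `x ≠ y` no third element `z` is related to `x` by all members of `𝓔` which relate `x` and
`y`. -/
def PairClosed (𝓔 : Set (Setoid E)) : Prop :=
  ∀ x y z : E, x ≠ y → (∀ θ ∈ 𝓔, θ x y → θ x z) → z = x ∨ z = y

/-- No two elements exhaust `E`, and every set of two elements is a class of some member of `𝓔`. -/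
def HasPairs (𝓔 : Set (Setoid E)) : Prop :=
  (∀ x y : E, ∃ z, z ≠ x ∧ z ≠ y) ∧
  ∀ x y : E, x ≠ y → ∃ θ ∈ 𝓔, ∀ z, θ x z ↔ (z = x ∨ z = y)

theorem linked_of_propertyP {𝓔 : Set (Setoid E)} (h : PropertyP 𝓔) : Linked 𝓔 := by
  classical
  intro u v hu hv
  by_contra hn
  let f : E → E → E := fun x y => if Relation.EqvGen (Link 𝓔) u (x, y) then x else y
  have hf : ∀ x y, f x y = x ∨ f x y = y := fun x y => by
    by_cases hx : Relation.EqvGen (Link 𝓔) u (x, y)
    · exact Or.inl (if_pos hx)
    · exact Or.inr (if_neg hx)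
  have hpres : Preserves 𝓔 f := by
    intro θ hθ x x' y y' hx hy
    by_cases hxy : θ x y
    · have hx' : ∀ z, z = x' ∨ z = y' → θ x z := by
        rintro z (rfl | rfl)
        · exact hx
        · exact θ.trans hxy hy
      rcases hf x y with h2 | h2
      · rw [h2]
        exact hx' _ (hf x' y')
      · rw [h2]
        exact θ.trans (θ.symm hxy) (hx' _ (hf x' y'))
    · have hl : Link 𝓔 (x, y) (x', y') := ⟨θ, hθ, hx, hy, hxy⟩
      have hiff : Relation.EqvGen (Link 𝓔) u (x, y) ↔ Relation.EqvGen (Link 𝓔) u (x', y') :=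
        ⟨fun h3 => h3.trans _ _ _ (.rel _ _ hl),
          fun h3 => h3.trans _ _ _ ((Relation.EqvGen.rel _ _ hl).symm _ _)⟩
      by_cases h3 : Relation.EqvGen (Link 𝓔) u (x, y)
      · have h4 : f x y = x := if_pos h3
        have h5 : f x' y' = x' := if_pos (hiff.1 h3)
        rw [h4, h5]
        exact hx
      · have h4 : f x y = y := if_neg h3
        have h5 : f x' y' = y' := if_neg (fun h6 => h3 (hiff.2 h6))
        rw [h4, h5]
        exact hy
  rcases h f (fun x => by rcases hf x x with h1 | h1 <;> exact h1) hpres with h1 | h1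
  · apply hv
    have h2 : f v.1 v.2 = v.2 := if_neg hn
    rw [← h1 v.1 v.2, h2]
  · apply hu
    have h2 : f u.1 u.2 = u.1 := if_pos (Relation.EqvGen.refl u)
    rw [← h1 u.1 u.2, h2]

theorem propertyP_of_linked {𝓔 : Set (Setoid E)} (hp : PairClosed 𝓔) (hl : Linked 𝓔) :
    PropertyP 𝓔 := by
  intro f hi hf
  have hc : ∀ x y, f x y = x ∨ f x y = y := by
    intro x y
    by_cases hxy : x = y
    · left
      rw [← hxy]
      exact hi x
    · apply hp x y (f x y) hxy
      intro θ hθ h1
      have h2 := hf θ hθ x x x y (θ.refl x) h1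
      rwa [hi x] at h2
  have hs : ∀ u v : E × E, Relation.EqvGen (Link 𝓔) u v →
      (f u.1 u.2 = u.1 ↔ f v.1 v.2 = v.1) := by
    intro u v huv
    induction huv with
    | refl u => exact Iff.rfl
    | symm u v _ ih => exact ih.symm
    | trans u v w _ _ ih1 ih2 => exact ih1.trans ih2
    | rel u v h =>
      obtain ⟨θ, hθ, h1, h2, h3⟩ := h
      have h4 := hf θ hθ _ _ _ _ h1 h2
      constructor
      · intro h5
        rcases hc v.1 v.2 with h6 | h6
        · exact h6
        · exfalso
          rw [h5, h6] at h4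
          exact h3 (θ.trans h4 (θ.symm h2))
      · intro h5
        rcases hc u.1 u.2 with h6 | h6
        · exact h6
        · exfalso
          rw [h5, h6] at h4
          exact h3 (θ.trans h1 (θ.symm h4))
  by_cases hex : ∃ u : E × E, u.1 ≠ u.2 ∧ f u.1 u.2 = u.1
  · obtain ⟨u, hu, hfu⟩ := hex
    left
    intro x y
    by_cases hxy : x = y
    · rw [← hxy]
      exact hi x
    · exact (hs u (x, y) (hl u (x, y) hu hxy)).1 hfu
  · right
    intro x y
    by_cases hxy : x = y
    · rw [← hxy]
      exact hi x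
    · rcases hc x y with h1 | h1
      · exact absurd ⟨(x, y), hxy, h1⟩ hex
      · exact h1

/-- An example: if `E` has at least three elements and every set of two elements is a class of some
member of `𝓔`, then `𝓔` has property (P). -/
theorem propertyP_of_pairs {𝓔 : Set (Setoid E)} (hh : HasPairs 𝓔) : PropertyP 𝓔 := by
  obtain ⟨h3, h⟩ := hh
  have hpc : PairClosed 𝓔 := by
    intro x y z hxy hz
    obtain ⟨θ, hθ, h1⟩ := h x y hxy
    exact (h1 z).1 (hz θ hθ ((h1 y).2 (Or.inr rfl)))
  -- one component of a pair may be changed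
  have hA : ∀ x x' y : E, x ≠ y → x' ≠ y → Relation.EqvGen (Link 𝓔) (x, y) (x', y) := by
    intro x x' y hx hx'
    by_cases hxx : x = x'
    · rw [hxx]
      exact .refl _
    · obtain ⟨θ, hθ, h1⟩ := h x x' hxx
      refine .rel _ _ ⟨θ, hθ, (h1 x').2 (Or.inr rfl), θ.refl y, fun h2 => ?_⟩
      rcases (h1 y).1 h2 with h4 | h4
      · exact hx h4.symm
      · exact hx' h4.symm
  have hB : ∀ x y y' : E, x ≠ y → x ≠ y' → Relation.EqvGen (Link 𝓔) (x, y) (x, y') := by
    intro x y y' hy hy'
    by_cases hyy : y = y'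
    · rw [hyy]
      exact .refl _
    · obtain ⟨θ, hθ, h1⟩ := h y y' hyy
      refine .rel _ _ ⟨θ, hθ, θ.refl x, (h1 y').2 (Or.inr rfl), fun h2 => ?_⟩
      rcases (h1 x).1 (θ.symm h2) with h4 | h4
      · exact hy h4
      · exact hy' h4
  apply propertyP_of_linked hpc
  rintro ⟨x, y⟩ ⟨x', y'⟩ hxy hxy'
  change x ≠ y at hxy
  change x' ≠ y' at hxy'
  by_cases h1 : x = y'
  · by_cases h2 : x' = y
    · -- `(x, y)` to `(y, x)` through a third element
      subst h1 h2
      obtain ⟨z, hz1, hz2⟩ := h3 x x'
      refine (hA x z x' hxy hz2).trans _ _ _ ((hB z x' x hz2 hz1).trans _ _ _ ?_)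
      exact hA z x' x hz1 (fun h => hxy h.symm)
    · refine (hA x x' y hxy h2).trans _ _ _ (hB x' y y' h2 hxy')
  · refine (hB x y y' hxy h1).trans _ _ _ (hA x x' y' h1 hxy')

end Pool.Agent.Results.MP_51c8ca_al.PairClosedFamilies

open Pool.Agent.Results.MP_51c8ca_al.PairClosedFamilies in
theorem Pool.Agent.Results.MP_51c8ca_al.PairClosedFamilies.result :
    (∀ (E : Type) (𝓔 : Set (Setoid E)), PropertyP 𝓔 → Linked 𝓔) ∧
    (∀ (E : Type) (𝓔 : Set (Setoid E)), PairClosed 𝓔 → (PropertyP 𝓔 ↔ Linked 𝓔)) ∧
    (∀ (E : Type) (𝓔 : Set (Setoid E)), HasPairs 𝓔 → PropertyP 𝓔) :=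
  ⟨fun _ _ h => linked_of_propertyP h,
    fun _ _ hp => ⟨fun h => linked_of_propertyP h, fun h => propertyP_of_linked hp h⟩,
    fun _ _ h => propertyP_of_pairs h⟩
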