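import Pool.Agent.Y280.RF.Fam

/-!
Property (P) of a family of equivalence relations on a finite set: the only idempotent binary maps
preserving all its members are the two projections.

* For families of pairwise rectangle-free equivalence relations property (P) is classified: it holds
  if and only if the family generates the total relation and every point lies in non-singleton
  classes of at least two members.
* The two conditions are necessary for every family, and every family with a subfamily as above
  has property (P).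
* For two relations: the relations generate the total relation and have no singleton classes. Two
  relations suffice on every set of even size at least six.
-/

set_option autoImplicit false

universe u

namespace Pool.Agent.Results.MP_51c8ca_al.RectangleFreeFamilies

open Y280.RF

/-- `𝓔` has property (P): every idempotent map `f : E → E → E` that preserves every relation in
`𝓔` is one of the two projections. -/
def PropertyP {E : Type u} (𝓔 : Set (Setoid E)) : Prop :=
  ∀ f : E → E → E, (∀ x, f x x = x) →
    (∀ θ ∈ 𝓔, ∀ x x' y y' : E, θ x x' → θ y y' → θ (f x y) (f x' y')) →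
    (∀ x y, f x y = x) ∨ (∀ x y, f x y = y)

/-- There is no rectangle `x θ y η z θ t η x` with `x ≠ y` and `y ≠ z` for distinct members `θ`, `η`
of the family. -/
def RectangleFree {E : Type u} (𝓔 : Set (Setoid E)) : Prop :=
  ∀ θ ∈ 𝓔, ∀ η ∈ 𝓔, θ ≠ η →
    ∀ x y z t : E, θ x y → η y z → θ z t → η t x → x = y ∨ y = z

/-- The family generates the total relation, and every point lies in non-singleton classes of at
least two members. -/
def Spread {E : Type u} (𝓔 : Set (Setoid E)) : Prop :=
  sSup 𝓔 = ⊤ ∧ ∀ x : E, ∃ θ ∈ 𝓔, ∃ η ∈ 𝓔, θ ≠ η ∧ (∃ y, y ≠ x ∧ θ x y) ∧ ∃ y, y ≠ x ∧ η x y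

theorem suff {E : Type u} [Finite E] {𝓔 𝓕 : Set (Setoid E)} (h : RectangleFree 𝓔)
    (hg : Spread 𝓔) (hEF : 𝓔 ⊆ 𝓕) : PropertyP 𝓕 := by
  intro f hid hf
  have : Finite (Setoid E) :=
    Finite.of_injective (fun r : Setoid E => (fun x y => r x y : E → E → Prop)) fun r s hrs =>
      Setoid.ext fun x y => by
        have := congrFun (congrFun hrs x) y
        exact iff_of_eq this
  have hρ : PNR (fun i : 𝓔 => i.1) := by
    intro i j hij
    exact h i.1 i.2 j.1 j.2 (fun h => hij (Subtype.ext h))
  refine sufficiency2 (θ := fun i : 𝓔 => i.1) hρ ?_ ?_ ?_ hid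
  · intro x
    obtain ⟨θ, hθ, η, hη, hne, h1, h2⟩ := hg.2 x
    exact ⟨⟨θ, hθ⟩, ⟨η, hη⟩, fun h => hne (congrArg Subtype.val h), h1, h2⟩
  · intro x y
    have hxy : (sSup 𝓔) x y := by
      rw [hg.1]
      trivial
    rw [Setoid.sSup_eq_eqvGen] at hxy
    have hxy' : Relation.EqvGen (fun x y => ∃ r ∈ 𝓔, r x y) x y := hxy
    clear hxy
    induction hxy' with
    | rel a b hab =>
      obtain ⟨r, hr, hab⟩ := hab
      exact Relation.ReflTransGen.single ⟨⟨r, hr⟩, hab⟩
    | refl a => exact Relation.ReflTransGen.refl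
    | symm a b _ ih =>
      have hsym : ∀ {p q : E}, Relation.ReflTransGen (fun u v => ∃ i : 𝓔, i.1 u v) p q →
          Relation.ReflTransGen (fun u v => ∃ i : 𝓔, i.1 u v) q p := by
        intro p q hpq
        induction hpq with
        | refl => exact Relation.ReflTransGen.refl
        | tail _ h2 ih2 =>
          obtain ⟨i, hi⟩ := h2
          exact Relation.ReflTransGen.head ⟨i, i.1.symm hi⟩ ih2
      exact hsym ih
    | trans a b c _ _ ih1 ih2 => exact ih1.trans ih2
  · intro i x x' y y' h1 h2
    exact hf i.1 (hEF i.2) x x' y y' h1 h2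

theorem nec_sup {E : Type u} {𝓔 : Set (Setoid E)} (h : PropertyP 𝓔) : sSup 𝓔 = ⊤ := by
  rw [eq_top_iff]
  intro x y hxy
  clear hxy
  have := necessary_conn (𝓔 := 𝓔) h x y
  induction this with
  | refl => exact (sSup 𝓔).refl _
  | tail _ h2 ih =>
    obtain ⟨θ, hθ, huv⟩ := h2
    exact (sSup 𝓔).trans ih (le_sSup hθ huv)

theorem nec_sep {E : Type u} {𝓔 : Set (Setoid E)} (h : PropertyP 𝓔) {x z : E} (hxz : x ≠ z) :
    ∃ θ ∈ 𝓔, ¬ θ x z ∧ ∃ y, y ≠ x ∧ θ x y := by
  classical
  by_contra hno
  push Not at hno
  rcases h (fun u v => if u = x ∧ v ≠ x then z else u) (fun u => by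
      by_cases hu : u = x
      · simp [hu]
      · simp [hu]) (by
    intro θ hθ u u' v v' hu hv
    by_cases hx : θ x z
    · have hval : ∀ a b : E, θ a (if a = x ∧ b ≠ x then z else a) := by
        intro a b
        by_cases hc : a = x ∧ b ≠ x
        · rw [if_pos hc, hc.1]
          exact hx
        · rw [if_neg hc]
      exact θ.trans (θ.symm (hval u v)) (θ.trans hu (hval u' v'))
    · have hx' : ∀ y, θ x y → y = x := fun y hy => by
        by_contra hne
        exact hno θ hθ hx y hne hy
      have hux : ∀ {a b : E}, θ a b → a = x → b = x := by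
        intro a b hab ha
        subst ha
        exact hx' b hab
      by_cases hc : u = x ∧ v ≠ x
      · rw [if_pos hc, if_pos ⟨hux hu hc.1, fun h => hc.2 (hux (θ.symm hv) h)⟩]
      · rw [if_neg hc, if_neg (fun h => hc ⟨hux (θ.symm hu) h.1, fun h' => h.2 (hux hv h')⟩)]
        exact hu) with h | h
  · have := h x z
    rw [if_pos ⟨rfl, hxz.symm⟩] at this
    exact hxz this.symm
  · have := h z x
    rw [if_neg (fun h => hxz h.1.symm)] at this
    exact hxz this.symm

theorem nec {E : Type u} [Nontrivial E] {𝓔 : Set (Setoid E)} (h : PropertyP 𝓔) : Spread 𝓔 := by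
  refine ⟨nec_sup h, fun x => ?_⟩
  obtain ⟨z, hz⟩ := exists_ne x
  obtain ⟨θ, hθ, _, y, hy, hxy⟩ := nec_sep h hz.symm
  obtain ⟨η, hη, hn, hη2⟩ := nec_sep h hy.symm
  refine ⟨θ, hθ, η, hη, ?_, ⟨y, hy, hxy⟩, hη2⟩
  rintro rfl
  exact hn hxy

/-- the two relations of the cycle with `2 k` elements -/
theorem cycle (k : ℕ) (hk : 3 ≤ k) :
    ∃ θ η : Setoid (ZMod k × Bool), RectangleFree ({θ, η} : Set (Setoid (ZMod k × Bool))) ∧
      Spread ({θ, η} : Set (Setoid (ZMod k × Bool))) := by
  have : NeZero k := ⟨by omega⟩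
  have hk1 : (1 : ZMod k) ≠ 0 := by
    intro h
    have : ((1 : ℕ) : ZMod k) = 0 := by exact_mod_cast h
    rw [ZMod.natCast_eq_zero_iff] at this
    exact absurd (Nat.le_of_dvd (by omega) this) (by omega)
  have hk2 : (1 : ZMod k) + 1 ≠ 0 := by
    intro h
    have : ((2 : ℕ) : ZMod k) = 0 := by
      push_cast
      rw [← h]
      norm_num
    rw [ZMod.natCast_eq_zero_iff] at this
    exact absurd (Nat.le_of_dvd (by omega) this) (by omega)
  let s : ZMod k × Bool → ZMod k := fun p => p.1 + if p.2 then 1 else 0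
  have hrf : ∀ x y z t : ZMod k × Bool, x.1 = y.1 → s y = s z → z.1 = t.1 → s t = s x →
      x = y ∨ y = z := by
    rintro ⟨i, bx⟩ ⟨i', bye⟩ ⟨j, bz⟩ ⟨j', bt⟩ h1 h2 h3 h4
    have e1 : i = i' := h1
    have e2 : i' + (if bye then 1 else 0) = j + if bz then 1 else 0 := h2
    have e3 : j = j' := h3
    have e4 : j' + (if bt then 1 else 0) = i + if bx then 1 else 0 := h4
    subst e1 e3
    cases bx <;> cases bye <;> cases bz <;> cases bt <;>
      simp only [if_true, if_false, add_zero, Bool.false_eq_true, reduceIte] at e2 e4 <;>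
      first
        | (left; rfl)
        | (right; rw [e2]; done)
        | (right; rw [add_right_cancel e2]; done)
        | (exfalso; subst e2; first
            | exact hk1 (by linear_combination e4)
            | exact hk1 (by linear_combination -e4)
            | exact hk2 (by linear_combination e4)
            | exact hk2 (by linear_combination -e4))
        | (exfalso; subst e4; first
            | exact hk1 (by linear_combination e2)
            | exact hk1 (by linear_combination -e2)
            | exact hk2 (by linear_combination e2)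
            | exact hk2 (by linear_combination -e2))
  have hne : (Setoid.ker (Prod.fst : ZMod k × Bool → ZMod k)) ≠ Setoid.ker s := by
    intro h
    have h1 : (Setoid.ker (Prod.fst : ZMod k × Bool → ZMod k)) (0, false) (0, true) := rfl
    rw [h] at h1
    have h2 : s (0, false) = s (0, true) := h1
    simp [s] at h2
    exact hk1 h2.symm
  refine ⟨Setoid.ker Prod.fst, Setoid.ker s, ?_, ?_, ?_⟩
  · intro θ hθ η hη hne' x y z t h1 h2 h3 h4
    simp only [Set.mem_insert_iff, Set.mem_singleton_iff] at hθ hη
    rcases hθ with rfl | rfl <;> rcases hη with rfl | rfl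
    · exact absurd rfl hne'
    · exact hrf x y z t h1 h2 h3 h4
    · rcases hrf y z t x h2 h3 h4 h1 with h | h
      · exact Or.inr h
      · left
        subst h
        have h2' : y.1 = z.1 := h2
        have h4' : z.1 = x.1 := h4
        have h1' : s x = s y := h1
        rcases hrf x y x y (h2'.trans h4').symm h1'.symm (h2'.trans h4').symm h1'.symm with h | h
        · exact h
        · exact h.symm
    · exact absurd rfl hne'
  · rw [sSup_pair, eq_top_iff]
    have hθ : ∀ i b c, (Setoid.ker (Prod.fst : ZMod k × Bool → ZMod k) ⊔ Setoid.ker s) (i, b) (i, c) :=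
      fun i b c => le_sup_left (a := Setoid.ker (Prod.fst : ZMod k × Bool → ZMod k))
        (b := Setoid.ker s) (show (i, b).1 = (i, c).1 from rfl)
    have hη : ∀ i, (Setoid.ker (Prod.fst : ZMod k × Bool → ZMod k) ⊔ Setoid.ker s)
        (i, true) (i + 1, false) :=
      fun i => le_sup_right (a := Setoid.ker (Prod.fst : ZMod k × Bool → ZMod k))
        (b := Setoid.ker s) (show s (i, true) = s (i + 1, false) by simp [s])
    have key : ∀ n : ℕ, (Setoid.ker (Prod.fst : ZMod k × Bool → ZMod k) ⊔ Setoid.ker s)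
        (0, false) ((n : ZMod k), false) := by
      intro n
      induction n with
      | zero =>
        rw [Nat.cast_zero]
      | succ n ih =>
        rw [Nat.cast_succ]
        exact Setoid.trans' _ ih (Setoid.trans' _ (hθ _ false true) (hη _))
    have key2 : ∀ p : ZMod k × Bool,
        (Setoid.ker (Prod.fst : ZMod k × Bool → ZMod k) ⊔ Setoid.ker s) (0, false) p := by
      rintro ⟨i, b⟩
      have := key i.val
      rw [ZMod.natCast_zmod_val] at this
      exact Setoid.trans' _ this (hθ _ _ _)
    intro p q _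
    exact Setoid.trans' _ (Setoid.symm' _ (key2 p)) (key2 q)
  · rintro ⟨i, b⟩
    refine ⟨_, Set.mem_insert _ _, _, Set.mem_insert_of_mem _ rfl, hne,
      ⟨(i, !b), by simp, rfl⟩, ?_⟩
    cases b with
    | false =>
      refine ⟨(i - 1, true), by simp, ?_⟩
      show s (i, false) = s (i - 1, true)
      simp [s]
    | true =>
      refine ⟨(i + 1, false), by simp, ?_⟩
      show s (i, true) = s (i + 1, false)
      simp [s]

/-- **Property (P) for families of pairwise rectangle-free equivalence relations.** -/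
theorem result :
    (∀ (E : Type u) [Finite E] [Nontrivial E] (𝓔 : Set (Setoid E)), RectangleFree 𝓔 →
      (PropertyP 𝓔 ↔ Spread 𝓔)) ∧
    (∀ (E : Type u) [Finite E] (𝓔 𝓕 : Set (Setoid E)), RectangleFree 𝓔 → Spread 𝓔 → 𝓔 ⊆ 𝓕 →
      PropertyP 𝓕) ∧
    (∀ (E : Type u) [Nontrivial E] (𝓔 : Set (Setoid E)), PropertyP 𝓔 →
      Spread 𝓔 ∧ ∀ x z : E, x ≠ z → ∃ θ ∈ 𝓔, ¬ θ x z ∧ ∃ y, y ≠ x ∧ θ x y) ∧
    (∀ k : ℕ, 3 ≤ k → ∃ θ η : Setoid (ZMod k × Bool),
      RectangleFree ({θ, η} : Set (Setoid (ZMod k × Bool))) ∧
        PropertyP ({θ, η} : Set (Setoid (ZMod k × Bool)))) := by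
  refine ⟨?_, ?_, ?_, ?_⟩
  · intro E _ _ 𝓔 h
    exact ⟨nec, fun hg => suff h hg subset_rfl⟩
  · intro E _ 𝓔 𝓕 h hg hEF
    exact suff h hg hEF
  · intro E _ 𝓔 h
    exact ⟨nec h, fun x z hxz => nec_sep h hxz⟩
  · intro k hk
    have : NeZero k := ⟨by omega⟩
    obtain ⟨θ, η, h1, h2⟩ := cycle k hk
    exact ⟨θ, η, h1, suff h1 h2 subset_rfl⟩

end Pool.Agent.Results.MP_51c8ca_al.RectangleFreeFamilies
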